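import Pool.Agent.R196.SP.Final

/-!
# A decide-on-arrival scheduler that is O(1)-competitive for mean response time

For every number `p ≥ 1` of processors there is a deterministic online decide-on-arrival scheduler
which with speed `6` is `4`-competitive for the mean response time against every (offline) schedule
on unit speed processors.

The model (`Task`, `Valid`, `Alloc`, `load`, `work`, `Feasible`, `Scheduler`, `arrived`,
`Scheduler.c`, `Scheduler.a`, `resp`, `Competitive`) is in `Pool/Agent/R196/SP/Stmt.lean`.

Algorithm.  `p₀ = ⌊p/2⌋` processors always work together; they form a queue with service rate `6 p₀`
for the tasks whose parallel implementation is chosen.  Each of the other `p - p₀` processors is a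
queue with service rate `6` for tasks whose serial implementation is chosen.  Each queue is served
in the order of the shortest remaining work.  An arriving task is sent immediately, and for ever, to
the queue at which it causes the least increase of the total response time, which is
`(w + ∑ min(remaining work, w))/rate`, where `w` is the work of the implementation for this queue.
(If `p = 1` there is one queue, for serial implementations.)

Analysis (linear programming duality).  The total response time `F` of the algorithm is the sum of
the increases `α_i`.  For every time `t ≥ t_i` and every queue, `α_i ≤ (t - t_i) + w/rate +
(w/rate) · (length of the queue at time t)`, because the sum of the `min(remaining work, w)`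
decreases at most at rate `rate`, also when further tasks arrive.  Averaging over the serial queues
gives a feasible dual solution, and weak duality gives `F ≤ 2 OPT + F/2`.
-/

namespace Pool.Agent.Results.MP_858cbd_lc.DecideOnArrival

open Pool.Agent.R196.SP

/-- For every `p ≥ 1` there is a decide-on-arrival scheduler on `p` processors which with speed `6`
is `4`-competitive for mean response time. -/
theorem result : ∀ p : ℕ, 1 ≤ p → ∃ S : Scheduler p, Competitive S 6 4 :=
  final

end Pool.Agent.Results.MP_858cbd_lc.DecideOnArrival
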